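import Mathlib
import Pool.Agent.W66.LU
import Pool.Agent.H19P.TB

set_option autoImplicit false

/-!
# Decimal repunits and the last digits of random 10-adic integers

For a sequence `d` of decimal digits and a prime `p` let `N d p` be the integer
`d 0 + d 1 * 10 + ... + d (p - 1) * 10 ^ (p - 1)` formed by the last `p` digits of the 10-adic
integer `... d 2 d 1 d 0`, and let `W d p` be its `p`-rough part (the product, with multiplicity, of
its prime factors larger than `p`).  If all digits are equal to `1` (the 10-adic integer `-1 / 9`)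
then `W d p` is the repunit `R p`, for every prime `p ≠ 3`.  For a set `S` let `M S d n` be the
number of primes `p ≤ n` in `S` with `W d p` prime, and let `V S n` be the sum of `log p / p` over
the primes `p ≤ n` in `S`.

The digits are independent and uniformly distributed (Haar measure on the 10-adic integers).  We
prove that for almost every sequence of digits with last digit `d 0` in `{1, 3, 7, 9}` the number of
primes `p ≤ n` with `W d p` prime is
`(e ^ γ / log 10) log n + O((log n) ^ (1/2) (log log n) ^ (5/2))`.  The same is proved for the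
lengths in any set `S` of primes, with the dichotomy finite / infinite.
-/

namespace Pool.Agent.Results.MP_adea1b_nt.LastDigits

open Filter Topology MeasureTheory Asymptotics

/-- The product, with multiplicity, of the prime factors of `m` that are larger than `p`. -/
def roughPart (p m : ℕ) : ℕ := (m.primeFactorsList.filter (fun r => p < r)).prod

/-- The integer formed by the last `p` digits of the 10-adic integer with digits `d`. -/
def N (d : ℕ → Fin 10) (p : ℕ) : ℕ := ∑ i ∈ Finset.range p, (d i : ℕ) * 10 ^ i

/-- The `p`-rough part of the integer formed by the last `p` digits. -/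
def W (d : ℕ → Fin 10) (p : ℕ) : ℕ := roughPart p (N d p)

open Classical in
/-- The number of primes `p ≤ n` in the set `S` for which `W d p` is prime. -/
noncomputable def M (S : Set ℕ) (d : ℕ → Fin 10) (n : ℕ) : ℕ :=
  ((Finset.range (n + 1)).filter (fun p => p.Prime ∧ p ∈ S ∧ (W d p).Prime)).card

open Classical in
/-- The sum of `log p / p` over the primes `p ≤ n` in the set `S`. -/
noncomputable def V (S : Set ℕ) (n : ℕ) : ℝ :=
  ∑ p ∈ (Finset.range (n + 1)).filter (fun p => p.Prime ∧ p ∈ S), Real.log p / p

/-- Independent uniformly distributed decimal digits. -/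
noncomputable def digits : Measure (ℕ → Fin 10) :=
  Measure.infinitePi (fun _ : ℕ => ProbabilityTheory.uniformOn (Set.univ : Set (Fin 10)))

lemma V_eq (S : Set ℕ) (n : ℕ) : V S n = Pool.Agent.TH888.R.VS S n := by
  classical
  unfold V Pool.Agent.TH888.R.VS
  rw [Finset.sum_filter]
  refine Finset.sum_congr rfl fun p _ => ?_
  by_cases h : p.Prime ∧ p ∈ S
  · rw [if_pos h, if_pos ⟨h.2, h.1⟩]
    rfl
  · rw [if_neg h, if_neg fun h1 => h ⟨h1.2, h1.1⟩]

/-- The repunits. -/
lemma special {p : ℕ} (hp : p.Prime) (h3 : p ≠ 3) :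
    W (fun _ => 1) p = ∑ i ∈ Finset.range p, 10 ^ i := by
  have h := Pool.Agent.W66L.rough_repunit (b := 10) (by norm_num) hp (by
    intro h
    have h2 : p ∣ 3 := by
      have : p ∣ 3 ^ 2 := by simpa using h
      exact hp.dvd_of_dvd_pow this
    exact h3 ((Nat.prime_dvd_prime_iff_eq hp Nat.prime_three).1 h2))
  have e : N (fun _ => 1) p = ∑ i ∈ Finset.range p, 10 ^ i := by
    unfold N
    simp
  have h2 : W (fun _ => 1) p = Pool.Agent.H305R2.roughPart p (N (fun _ => 1) p) := rfl
  rw [h2, e]
  exact h

lemma M_eq (S : Set ℕ) (d : ℕ → Fin 10) (n : ℕ) :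
    M S d n = Pool.Agent.TH888.R.cS S (fun p => Pool.Agent.W66L.dsum 10 p d) n := by
  classical
  unfold M Pool.Agent.TH888.R.cS
  rfl

lemma pt (S : Set ℕ) : ∀ᵐ d ∂digits, (d 0 : ℕ) ∈ ({1, 3, 7, 9} : Set ℕ) →
    Pool.Agent.TH888.R.Pt (fun p => Pool.Agent.W66L.dsum 10 p d)
      (Real.exp Real.eulerMascheroniConstant / Real.log 10) S := by
  have h := Pool.Agent.H19P.pt_full (b := 10) (by norm_num) (Pool.Agent.W66L.full_digits 10) S
  have e : digits = Pool.Agent.W66L.digitMeasure 10 := rfl
  rw [e]
  filter_upwards [h] with d hd hc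
  have h1 : (Pool.Agent.W66L.dsum 10 1 d).Coprime 10 := by
    unfold Pool.Agent.W66L.dsum
    rw [Finset.sum_range_one, pow_zero, mul_one]
    rcases hc with hc | hc | hc | hc
    all_goals
      rw [hc]
      norm_num
  have h2 := hd h1
  simpa using h2

/-- If all digits are `1` the values are the repunits; for almost every sequence of digits whose last
digit is `1`, `3`, `7` or `9` the law holds with a square root error term; for every set of primes
the number of prime values is finite or infinite according to the weight of the set, and in the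
second case it obeys the corresponding law. -/
theorem result :
    (∀ p : ℕ, p.Prime → p ≠ 3 → W (fun _ => 1) p = ∑ i ∈ Finset.range p, 10 ^ i) ∧
    (∀ᵐ d ∂digits, (d 0 : ℕ) ∈ ({1, 3, 7, 9} : Set ℕ) →
      (fun n : ℕ => (M Set.univ d n : ℝ) -
        Real.exp Real.eulerMascheroniConstant / Real.log 10 * Real.log n) =O[atTop]
      (fun n : ℕ => Real.sqrt (Real.log n) * (Real.log (Real.log n)) ^ ((5 : ℝ) / 2))) ∧
    (∀ S : Set ℕ, Tendsto (V S) atTop atTop → ∀ᵐ d ∂digits, (d 0 : ℕ) ∈ ({1, 3, 7, 9} : Set ℕ) →
      (fun n : ℕ => (M S d n : ℝ) -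
        Real.exp Real.eulerMascheroniConstant / Real.log 10 * V S n) =O[atTop]
      (fun n : ℕ => Real.sqrt (V S n * Real.log (Real.log n)) *
        (Real.log (V S n * Real.log (Real.log n))) ^ 2)) ∧
    (∀ S : Set ℕ, ∀ᵐ d ∂digits, (d 0 : ℕ) ∈ ({1, 3, 7, 9} : Set ℕ) →
      ({p : ℕ | p.Prime ∧ p ∈ S ∧ (W d p).Prime}.Infinite ↔ Tendsto (V S) atTop atTop)) := by
  have hV : ∀ S, V S = Pool.Agent.TH888.R.VS S := fun S => funext fun n => V_eq S n
  refine ⟨fun p hp h3 => special hp h3, ?_, fun S hS => ?_, fun S => ?_⟩
  · filter_upwards [pt Set.univ] with d hd h0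
    obtain ⟨B, hB, h⟩ := (hd h0).law Pool.Agent.TH888.R.VS_univ_tendsto
    simp only [M_eq]
    exact Pool.Agent.TH888.R.bigO_all hB h
  · rw [hV] at hS ⊢
    filter_upwards [pt S] with d hd h0
    obtain ⟨B, hB, h⟩ := (hd h0).law hS
    simp only [M_eq]
    exact Pool.Agent.TH888.R.bigO_set hB hS h
  · rw [hV]
    filter_upwards [pt S] with d hd h0
    constructor
    · intro hi
      by_contra hn
      exact hi ((hd h0).fin hn)
    · exact (hd h0).inf

end Pool.Agent.Results.MP_adea1b_nt.LastDigits
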