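import Mathlib
import Pool.Agent.Y895.PS.R4

set_option autoImplicit false

/-!
# Primes that share their leading decimal digits with the repunits

For a sequence `m` and a real number `t` in `[0, 1)` let `N m t n` be the number whose first
`n - m n` decimal digits are equal to `1` and whose last `m n` digits are the first `m n` decimal
digits of `t`; for `t = 1 / 9` this is the repunit `R n`.  For a set `S` let `M m S t x` be the
number of `n ≤ x` in `S` for which `N m t n` is prime, and let `V S x` be the sum of `1 / n` over the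
positive integers `n ≤ x` in `S`.

We prove the following for every eventually monotone sequence `m` with `n - m n → ∞`.

* A positive proportion of prescribed digits: for every `ε` in `(0, 1)` there is `δ > 0` such that,
  if `m n ≥ (1 - δ) n` for large `n` and `m` grows at least linearly, then for every set `S` and
  almost every `t` there are infinitely many `n` in `S` with `N m t n` prime if and only if
  `V S x → ∞`, and in this case their number lies between `(1 - ε) V S x / log 10` and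
  `(1 + ε) V S x / log 10` for large `x`.
* If `n - m n = o(n)` and `m` grows at least linearly, then for every set `S` with `V S x → ∞` and
  almost every `t` the number of primes is asymptotic to `V S x / log 10`.
* If `m n ≥ n - κ n / log n` for large `n`, where `κ` is a positive constant, then the same
  dichotomy holds for almost every `t`, and the number of primes is `log x / log 10`, and
  `V S x / log 10` for every set `S` with `V S x → ∞`, up to a square root error term, for almost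
  every `t`.
-/

namespace Pool.Agent.Results.MP_adea1b_nt.LeadingRepunit

open Filter Topology MeasureTheory Asymptotics

/-- The repunits. -/
def R (n : ℕ) : ℕ := ∑ i ∈ Finset.range n, 10 ^ i

/-- `n - m n` digits `1`, followed by the first `m n` decimal digits of `t`. -/
noncomputable def N (m : ℕ → ℕ) (t : ℝ) (n : ℕ) : ℕ := 10 ^ m n * R (n - m n) + ⌊10 ^ m n * t⌋₊

open Classical in
/-- The number of `n ≤ x` in the set `S` for which `N m t n` is prime. -/
noncomputable def M (m : ℕ → ℕ) (S : Set ℕ) (t : ℝ) (x : ℕ) : ℕ :=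
  ((Finset.range (x + 1)).filter (fun n => n ∈ S ∧ (N m t n).Prime)).card

open Classical in
/-- The sum of `1 / n` over the positive integers `n ≤ x` in the set `S`. -/
noncomputable def V (S : Set ℕ) (x : ℕ) : ℝ :=
  ∑ n ∈ (Finset.Icc 1 x).filter (fun n => n ∈ S), 1 / (n : ℝ)

/-- The number of digits that are left free when the first `⌊κ n / log n⌋` digits are prescribed. -/
noncomputable def free (κ : ℝ) (n : ℕ) : ℕ := n - ⌊κ * n / Real.log n⌋₊

/-- The number of digits that are left free when the first `⌊δ n⌋` digits are prescribed. -/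
noncomputable def most (δ : ℝ) (n : ℕ) : ℕ := n - ⌊δ * n⌋₊

/-- The sequence grows at least linearly, up to a bounded amount. -/
def Linear (m : ℕ → ℕ) : Prop := ∃ σ D : ℝ, 0 < σ ∧ ∀ᶠ p : ℕ in atTop, ∀ q ≥ p,
  σ * ((q : ℝ) - p) - D ≤ (m q : ℝ) - m p

lemma V_eq (S : Set ℕ) (x : ℕ) : V S x = Pool.Agent.Y895.SQ.VN S x := by
  classical
  unfold V Pool.Agent.Y895.SQ.VN Pool.Agent.Y895.SQ.wn
  rw [Finset.sum_filter]
  have e1 : Finset.range (x + 1) = insert 0 (Finset.Icc 1 x) := by
    ext p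
    simp only [Finset.mem_range, Finset.mem_insert, Finset.mem_Icc]
    omega
  rw [e1, Finset.sum_insert (by simp)]
  simp

lemma M_eq (m : ℕ → ℕ) (S : Set ℕ) (t : ℝ) (x : ℕ) :
    M m S t x = Pool.Agent.Y895.SQ.cN S (N m t) x := by
  classical
  unfold M Pool.Agent.Y895.SQ.cN
  rfl

lemma nine (n : ℕ) : 9 * R n + 1 = 10 ^ n := by
  unfold R
  induction n with
  | zero => simp
  | succ n ih => rw [Finset.sum_range_succ, pow_succ]; omega

lemma R_split {m p : ℕ} (h : m ≤ p) : 10 ^ m * R (p - m) + R m = R p := by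
  have h1 := nine p
  have h2 := nine m
  have h3 := nine (p - m)
  have h4 : 10 ^ p = 10 ^ m * 10 ^ (p - m) := by rw [← pow_add]; congr 1; omega
  have h5 : 10 ^ m * 10 ^ (p - m) = 9 * (10 ^ m * R (p - m)) + 10 ^ m := by rw [← h3]; ring
  omega

lemma R_div (m p : ℕ) : R p / 10 ^ m = R (p - m) := by
  have h2 := nine m
  by_cases h : m ≤ p
  · rw [← R_split h, Nat.mul_add_div (by positivity), Nat.div_eq_of_lt (by omega), add_zero]
  · have h1 := nine p
    have h3 : 10 ^ p < 10 ^ m := Nat.pow_lt_pow_right (by norm_num) (by omega)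
    have h4 : p - m = 0 := by omega
    rw [h4, Nat.div_eq_of_lt (by omega)]
    rfl

lemma floor_special (m : ℕ) : ⌊(10 : ℝ) ^ m * (1 / 9)⌋₊ = R m := by
  have h := nine m
  have h1 : (10 : ℝ) ^ m = 9 * R m + 1 := by exact_mod_cast h.symm
  rw [Nat.floor_eq_iff (by positivity), h1]
  constructor <;> linarith

lemma N_special {m : ℕ → ℕ} {p : ℕ} (h : m p ≤ p) : N m (1 / 9) p = R p := by
  unfold N
  rw [floor_special, R_split h]

/-- The first `n - m n` decimal digits of `N m t n` are equal to `1`, and `t = 1 / 9` gives the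
repunits.  With a small positive proportion of prescribed digits the dichotomy and the law with a
constant close to `1 / log 10` hold for almost every `t` and every set `S`, with `o(n)` prescribed
digits the law with the constant `1 / log 10`, and with `κ n / log n` prescribed digits the law with
a square root error term; the sequences with `⌊δ n⌋` or `⌊κ n / log n⌋` prescribed digits are
admissible. -/
theorem result :
    (∀ (m : ℕ → ℕ) (n : ℕ), m n ≤ n → N m (1 / 9) n = R n) ∧
    (∀ (m : ℕ → ℕ) (t : ℝ) (n : ℕ), 0 ≤ t → t < 1 → N m t n / 10 ^ m n = R (n - m n)) ∧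
    (∀ ε : ℝ, 0 < ε → ε < 1 → ∃ δ : ℝ, 0 < δ ∧
      ((∀ᶠ n in atTop, most δ n ≤ most δ (n + 1)) ∧ Linear (most δ) ∧
        Tendsto (fun n => n - most δ n) atTop atTop ∧
        ∀ᶠ n : ℕ in atTop, (1 - δ) * n ≤ most δ n) ∧
      ∀ m : ℕ → ℕ, (∀ᶠ n in atTop, m n ≤ m (n + 1)) → Tendsto (fun n => n - m n) atTop atTop →
        (∀ᶠ n : ℕ in atTop, (1 - δ) * n ≤ m n) → Linear m →
          ∀ S : Set ℕ, ∀ᵐ t : ℝ, 0 ≤ t → t < 1 →
            ({n : ℕ | n ∈ S ∧ (N m t n).Prime}.Infinite ↔ Tendsto (V S) atTop atTop) ∧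
            (Tendsto (V S) atTop atTop → ∀ᶠ x : ℕ in atTop,
              (1 - ε) / Real.log 10 * V S x ≤ M m S t x ∧
              (M m S t x : ℝ) ≤ (1 + ε) / Real.log 10 * V S x)) ∧
    (∀ m : ℕ → ℕ, (∀ᶠ n in atTop, m n ≤ m (n + 1)) → Tendsto (fun n => n - m n) atTop atTop →
      (∀ δ : ℝ, 0 < δ → ∀ᶠ n : ℕ in atTop, (1 - δ) * n ≤ m n) → Linear m →
        ∀ S : Set ℕ, Tendsto (V S) atTop atTop → ∀ᵐ t : ℝ, 0 ≤ t → t < 1 →
          Tendsto (fun x : ℕ => (M m S t x : ℝ) / V S x) atTop (𝓝 (1 / Real.log 10))) ∧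
    ∃ κ : ℝ, 0 < κ ∧
      ((∀ᶠ n in atTop, free κ n ≤ free κ (n + 1)) ∧ Tendsto (fun n => n - free κ n) atTop atTop ∧
        ∀ᶠ n : ℕ in atTop, (n : ℝ) - κ * n / Real.log n ≤ free κ n) ∧
      ∀ m : ℕ → ℕ, (∀ᶠ n in atTop, m n ≤ m (n + 1)) → Tendsto (fun n => n - m n) atTop atTop →
        (∀ᶠ n : ℕ in atTop, (n : ℝ) - κ * n / Real.log n ≤ m n) →
          (∀ S : Set ℕ, ∀ᵐ t : ℝ, 0 ≤ t → t < 1 →
            ({n : ℕ | n ∈ S ∧ (N m t n).Prime}.Infinite ↔ Tendsto (V S) atTop atTop)) ∧
          (∀ᵐ t : ℝ, 0 ≤ t → t < 1 →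
            (fun x : ℕ => (M m Set.univ t x : ℝ) - 1 / Real.log 10 * Real.log x) =O[atTop]
            (fun x : ℕ => Real.sqrt (Real.log x) * (Real.log (Real.log x)) ^ ((5 : ℝ) / 2))) ∧
          (∀ S : Set ℕ, Tendsto (V S) atTop atTop → ∀ᵐ t : ℝ, 0 ≤ t → t < 1 →
            (fun x : ℕ => (M m S t x : ℝ) - 1 / Real.log 10 * V S x) =O[atTop]
            (fun x : ℕ => Real.sqrt (V S x * Real.log (Real.log x)) *
              (Real.log (V S x * Real.log (Real.log x))) ^ 2)) := by
  have hV : ∀ S, V S = Pool.Agent.Y895.SQ.VN S := fun S => funext fun n => V_eq S n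
  have hQ : ∀ᶠ p : ℕ in atTop, 1 / 10 * (((10 : ℕ) : ℝ)) ^ p ≤ R p ∧
      (R p : ℝ) ≤ 1 * (((10 : ℕ) : ℝ)) ^ p := by
    filter_upwards [eventually_ge_atTop 1] with p hp
    have h2 : (10 : ℝ) ^ p = 9 * R p + 1 := by exact_mod_cast (nine p).symm
    have h3 : (10 : ℝ) ≤ 10 ^ p := by
      calc (10 : ℝ) = 10 ^ 1 := (pow_one _).symm
        _ ≤ 10 ^ p := pow_le_pow_right₀ (by norm_num) hp
    push_cast
    constructor <;> linarith
  have eN : ∀ (m : ℕ → ℕ) (t : ℝ),
      N m t = fun p => 10 ^ m p * (R p / 10 ^ m p) + ⌊((10 : ℕ) : ℝ) ^ m p * t⌋₊ := by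
    intro m t
    funext p
    rw [R_div]
    simp [N]
  have hle : ∀ m : ℕ → ℕ, Tendsto (fun n => n - m n) atTop atTop →
      ∀ᶠ p in atTop, 10 ^ m p ≤ R p := fun m ht =>
    Pool.Agent.Y895.OL.pow_le_of_tendsto (b := 10) (by norm_num) (by norm_num : (0 : ℝ) < 1 / 10)
      (hQ.mono fun p hp => hp.1) ht
  have hasy : ∀ ε : ℝ, 0 < ε → ε < 1 → ∃ δ : ℝ, 0 < δ ∧ δ < 1 ∧ ∀ m : ℕ → ℕ,
      (∀ᶠ n in atTop, m n ≤ m (n + 1)) → Tendsto (fun n => n - m n) atTop atTop →
        (∀ᶠ n : ℕ in atTop, (1 - δ) * n ≤ m n) → Linear m →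
          ∀ S : Set ℕ, ∀ᵐ t : ℝ, 0 ≤ t → t < 1 →
            ({n : ℕ | n ∈ S ∧ (N m t n).Prime}.Infinite ↔ Tendsto (V S) atTop atTop) ∧
            (Tendsto (V S) atTop atTop → ∀ᶠ x : ℕ in atTop,
              (1 - ε) / Real.log 10 * V S x ≤ M m S t x ∧
              (M m S t x : ℝ) ≤ (1 + ε) / Real.log 10 * V S x) := by
    intro ε hε hε1
    obtain ⟨δ, hδ, hδ1, hord⟩ := Pool.Agent.Y895.PS.asy_base_trunc ε hε hε1
    refine ⟨δ, hδ, hδ1, fun m hm ht hk hlin S => ?_⟩
    have h1 := hord 10 (by norm_num) (1 / 10) 1 (by norm_num) one_pos R m hQ hm hlin (hle m ht) hk S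
    filter_upwards [h1] with t ht h0 h1
    have h2 := ht h0 h1
    rw [← eN m t] at h2
    rw [hV]
    simp only [M_eq]
    push_cast at h2
    exact ⟨h2.inf, h2.law⟩
  refine ⟨fun m n hm => N_special hm, fun m t p h0 h1 => ?_, fun ε hε hε1 => ?_,
    fun m hm ht hk hlin S hS => ?_, ?_⟩
  · have := Pool.Agent.Y895.PM.upper_digits (b := 10) (m := m p) (k := R (p - m p)) (by norm_num)
      h0 h1
    simpa [N] using this
  · obtain ⟨δ, hδ, hδ1, h⟩ := hasy ε hε hε1
    obtain ⟨hd2, hd3⟩ := Pool.Agent.Y895.OL.dfree_spec hδ hδ1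
    refine ⟨δ, hδ, ⟨Eventually.of_forall fun p => Pool.Agent.Y895.OL.dfree_mono hδ hδ1 p,
      Pool.Agent.Y895.SQ.dfree_grow hδ hδ1, hd3, ?_⟩, h⟩
    filter_upwards [hd2] with p hp using hp.2.2
  · have h1 : ∀ k : ℕ, ∀ᵐ t : ℝ, 0 ≤ t → t < 1 → ∀ᶠ x : ℕ in atTop,
        (1 - 1 / ((k : ℝ) + 2)) * (1 / Real.log 10) * V S x ≤ M m S t x ∧
        (M m S t x : ℝ) ≤ (1 + 1 / ((k : ℝ) + 2)) * (1 / Real.log 10) * V S x := by
      intro k
      obtain ⟨δ, hδ, hδ1, h⟩ := hasy (1 / ((k : ℝ) + 2)) (by positivity) (by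
        rw [div_lt_one (by positivity)]
        have : (0 : ℝ) ≤ k := Nat.cast_nonneg k
        linarith)
      filter_upwards [h m hm ht (hk δ hδ) hlin S] with t ht h0 h1
      have h2 := (ht h0 h1).2 hS
      filter_upwards [h2] with x hx
      rw [mul_one_div, mul_one_div]
      exact hx
    filter_upwards [ae_all_iff.2 h1] with t ht h0 h1
    exact Pool.Agent.Y895.PS.lim_of_close (by
      have : (0 : ℝ) < Real.log 10 := Real.log_pos (by norm_num)
      positivity) hS fun k => ht k h0 h1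
  · obtain ⟨κ, hκ, h⟩ := Pool.Agent.Y895.SQ.law_base_trunc 10 (by norm_num)
    obtain ⟨hf1, hf2⟩ := Pool.Agent.Y895.PM.mfree_spec hκ
    refine ⟨κ, hκ, ⟨hf1, Pool.Agent.Y895.PM.mfree_tendsto hκ, ?_⟩, fun m hm ht hk => ?_⟩
    · filter_upwards [hf2] with p hp using hp.2.2
    · have hpt : ∀ S : Set ℕ, ∀ᵐ t : ℝ, 0 ≤ t → t < 1 → Pool.Agent.Y895.SQ.PtN (N m t)
          (1 / Real.log 10) S := by
        intro S
        have h1 := h (1 / 10) 1 (by norm_num) one_pos R m hQ hm (hle m ht) hk S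
        filter_upwards [h1] with t ht h0 h1
        rw [eN m t]
        have h2 := ht h0 h1
        push_cast at h2 ⊢
        exact h2
      refine ⟨fun S => ?_, ?_, fun S hS => ?_⟩
      · rw [hV]
        filter_upwards [hpt S] with t ht h0 h1
        exact (ht h0 h1).inf
      · filter_upwards [hpt Set.univ] with t ht h0 h1
        obtain ⟨B, hB, h⟩ := (ht h0 h1).law Pool.Agent.Y895.SQ.VN_univ_tendsto
        simp only [M_eq]
        exact Pool.Agent.Y895.SQ.bigO_univ hB h
      · rw [hV] at hS ⊢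
        filter_upwards [hpt S] with t ht h0 h1
        obtain ⟨B, hB, h⟩ := (ht h0 h1).law hS
        simp only [M_eq]
        exact Pool.Agent.TH888.R.bigO_set hB hS h

end Pool.Agent.Results.MP_adea1b_nt.LeadingRepunit
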